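import Pool.Agent.helper58.FI.SpecC

/-!
# Row `fi:FT0`: the alternating sum as a sum over all normal chains
-/

set_option autoImplicit false

namespace Pool.Agent.FI

open Pool.Agent.helper58.DC Pool.Agent.DI Pool.Agent.GR Pool.Agent.OB Pool.Agent.DR

theorem FT0_funMap_mul {G : Type} [Group G] (α β : MulAut G) (ψ : G → ℂ) :
    funMap (α * β) ψ = funMap α (funMap β ψ) := by
  funext g
  simp [funMap, mul_inv_rev]

theorem FT0_funMap_one {G : Type} [Group G] (ψ : G → ℂ) : funMap (1 : MulAut G) ψ = ψ := by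
  funext g
  simp [funMap]

theorem FT0_kC {G : Type} [Group G] (p : ℕ) (M : Ideal (integralClosure ℤ ℂ)) (χ : G → ℂ) (d : ℤ)
    (C : Finset (Subgroup G)) :
    kC (trivE G) p M χ d ⊤ C = (BlkD p M χ (nrm C) d).ncard := by
  unfold kC
  rw [← Nat.card_coe_set_eq]
  refine Nat.card_congr (Equiv.subtypeEquivRight fun ψ => ?_)
  constructor
  · rintro ⟨h1, h2, h3, -⟩
    exact ⟨⟨h1, h3⟩, h2⟩
  · rintro ⟨⟨h1, h3⟩, h2⟩
    exact ⟨h1, h2, h3, Subsingleton.elim _ _⟩

theorem FT0_map (hIF : IF_stmt) (hIM : IM_stmt) (hTI : TI_stmt) {G : Type} [Group G] [Finite G]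
    (p : ℕ) (M : Ideal (integralClosure ℤ ℂ)) (χ : G → ℂ) (hχ : χ ∈ Irr G) (d : ℤ) (g : G)
    (H : Subgroup G) (ψ : G → ℂ) (h : ψ ∈ BlkD p M χ H d) :
    funMap (MulAut.conj g) ψ ∈ BlkD p M χ (H.map (MulAut.conj g).toMonoidHom) d := by
  obtain ⟨⟨h1, h2⟩, h3⟩ := h
  refine ⟨⟨((hIF G H).2 ψ h1).2.2 _, ?_⟩, ?_⟩
  · have hc : funMap (MulAut.conj g) χ = χ := by
      funext x
      have := ((hIF G ⊤).2 χ ((hTI G χ).2 hχ)).2.1 g⁻¹ (Subgroup.mem_top _) x
      rw [inv_inv] at this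
      have e1 : (MulAut.conj g)⁻¹ x = g⁻¹ * x * g := by
        rw [← map_inv, MulAut.conj_apply, inv_inv]
      unfold funMap
      rw [e1]
      exact this
    have := ((hIM G M ψ χ χ).2.2.2 (MulAut.conj g)).2 h2
    rwa [hc] at this
  · obtain ⟨n, hn, hd⟩ := h3
    refine ⟨n, ?_, ?_⟩
    · have : funMap (MulAut.conj g) ψ 1 = ψ 1 := by
        unfold funMap
        rw [map_one]
      rw [this, hn]
    · have : Nat.card (H.map (MulAut.conj g).toMonoidHom) = Nat.card H :=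
        Nat.card_congr (H.equivMapOfInjective _ (MulAut.conj g).injective).toEquiv.symm
      rw [this, hd]

theorem FT0_card (hIF : IF_stmt) (hIM : IM_stmt) (hTI : TI_stmt) {G : Type} [Group G] [Finite G]
    (p : ℕ) (M : Ideal (integralClosure ℤ ℂ)) (χ : G → ℂ) (hχ : χ ∈ Irr G) (d : ℤ) (g : G)
    (H : Subgroup G) :
    (BlkD p M χ (H.map (MulAut.conj g).toMonoidHom) d).ncard = (BlkD p M χ H d).ncard := by
  have hback : (H.map (MulAut.conj g).toMonoidHom).map (MulAut.conj g⁻¹).toMonoidHom = H := by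
    rw [Subgroup.map_map]
    have : (MulAut.conj g⁻¹).toMonoidHom.comp (MulAut.conj g).toMonoidHom = MonoidHom.id G := by
      ext x
      simp [mul_assoc]
    rw [this, Subgroup.map_id]
  have e : BlkD p M χ (H.map (MulAut.conj g).toMonoidHom) d =
      funMap (MulAut.conj g) '' BlkD p M χ H d := by
    ext ψ
    constructor
    · intro h
      refine ⟨funMap (MulAut.conj g⁻¹) ψ, ?_, ?_⟩
      · have := FT0_map hIF hIM hTI p M χ hχ d g⁻¹ _ ψ h
        rwa [hback] at this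
      · rw [← FT0_funMap_mul, ← map_mul, mul_inv_cancel, map_one, FT0_funMap_one]
    · rintro ⟨φ, h, rfl⟩
      exact FT0_map hIF hIM hTI p M χ hχ d g H φ h
  rw [e]
  refine Set.ncard_image_of_injective _ fun φ φ' h => ?_
  have := congrArg (funMap (MulAut.conj g⁻¹)) h
  rwa [← FT0_funMap_mul, ← FT0_funMap_mul, ← map_mul, inv_mul_cancel, map_one, FT0_funMap_one,
    FT0_funMap_one] at this

theorem FT0 (hCLA : CLA_stmt) (hA7 : A7_stmt) (hA8 : A8_stmt) (hNM : NM_stmt) (hIF : IF_stmt)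
    (hIM : IM_stmt) (hTI : TI_stmt) (hFNO : FNO_stmt) : FT0_stmt := by
  classical
  intro G _ _ p _ M hop χ hχ d
  set gg : Subgroup G → ℤ := fun N => (Nat.card N : ℤ) * ((BlkD p M χ N d).ncard : ℤ) with hgg
  have h1 := hCLA G p (fun C => ((BlkD p M χ (nrm C) d).ncard : ℤ)) (by
    intro g C _
    rw [(hNM G (MulAut.conj g) C).2.2.2.1, FT0_card hIF hIM hTI p M χ hχ d g])
  have h2 : altSum (trivE G) p M χ d ⊤ = ∑ᶠ c : Quot (chainRel (G := G) p),
      (-1) ^ (c.out.1.card - 1) * ((BlkD p M χ (nrm c.out.1) d).ncard : ℤ) := by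
    unfold altSum
    refine finsum_congr fun c => ?_
    rw [FT0_kC]
  rw [h2, h1]
  have h3 := hA8 G G p (MonoidHom.id G) (fun _ _ h => h) ⊤ gg
  have e1 : ∀ C : Finset (Subgroup G), cmap (MonoidHom.id G) C = C := by
    intro C
    unfold cmap
    have : (Subgroup.map (MonoidHom.id G)) = id := by
      funext H
      exact Subgroup.map_id H
    rw [this, Finset.image_id]
  have e2 : (MonoidHom.id G).range = ⊤ := MonoidHom.range_eq_top.2 Function.surjective_id
  rw [e2, hA7 G p ⊤ ⊥ ⊤ gg hop (by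
    intro x _
    exact Subgroup.le_normalizer (Subgroup.mem_top x)), hFNO G p ⊤ ⊥ ⊤ gg IsPGroup.of_bot bot_le] at h3
  simp only [e1, top_inf_eq] at h3
  exact h3

end Pool.Agent.FI
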