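import Pool.Agent.helper40.FI.SpecLA

/-!
# Row `fi:LCG`: integer combinations of linear characters are closed under the ring operations
-/

set_option autoImplicit false

namespace Pool.Agent.FI

open Finset

theorem LCG_fin {D : Type} [Group D] [Fintype (D →* ℂˣ)] (f : D → ℂ) :
    LGC f ↔ ∃ m : (D →* ℂˣ) → ℤ, ∀ u, f u = ∑ l, (m l : ℂ) * lv l u := by
  unfold LGC
  simp only [finsum_eq_sum_of_fintype]

theorem LCG_iff {D : Type} [CommGroup D] [Finite D] (f : D → ℂ) :
    LGC f ↔ f ∈ AddSubgroup.closure (Set.range fun l : D →* ℂˣ => lv l) := by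
  classical
  have : Fintype (D →* ℂˣ) := Fintype.ofFinite _
  rw [LCG_fin]
  constructor
  · rintro ⟨m, hm⟩
    have h1 : f = ∑ l : D →* ℂˣ, m l • lv l := by
      funext u
      rw [hm u, Finset.sum_apply]
      refine Finset.sum_congr rfl fun l _ => ?_
      simp
    rw [h1]
    exact sum_mem fun l _ => zsmul_mem (AddSubgroup.subset_closure (Set.mem_range_self l)) _
  · intro h
    refine AddSubgroup.closure_induction (p := fun g _ => ∃ m : (D →* ℂˣ) → ℤ, ∀ u, g u = ∑ l, (m l : ℂ) * lv l u)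
      ?_ ?_ ?_ ?_ h
    · rintro g ⟨k, rfl⟩
      refine ⟨fun l => if l = k then 1 else 0, fun u => ?_⟩
      simp
    · refine ⟨0, fun u => ?_⟩
      simp
    · rintro g g' _ _ ⟨m, hm⟩ ⟨m', hm'⟩
      refine ⟨fun l => m l + m' l, fun u => ?_⟩
      rw [Pi.add_apply, hm, hm', ← Finset.sum_add_distrib]
      refine Finset.sum_congr rfl fun l _ => ?_
      push_cast
      ring
    · rintro g _ ⟨m, hm⟩
      refine ⟨fun l => - m l, fun u => ?_⟩
      rw [Pi.neg_apply, hm, ← Finset.sum_neg_distrib]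
      refine Finset.sum_congr rfl fun l _ => ?_
      push_cast
      ring

theorem LCG_mul {D : Type} [CommGroup D] [Finite D] (f g : D → ℂ) (hf : LGC f) (hg : LGC g) : LGC (f * g) := by
  rw [LCG_iff] at hf hg ⊢
  refine AddSubgroup.closure_induction
    (p := fun f _ => f * g ∈ AddSubgroup.closure (Set.range fun l : D →* ℂˣ => lv l)) ?_ ?_ ?_ ?_ hf
  · rintro _ ⟨l, rfl⟩
    refine AddSubgroup.closure_induction
      (p := fun g _ => lv l * g ∈ AddSubgroup.closure (Set.range fun l : D →* ℂˣ => lv l)) ?_ ?_ ?_ ?_ hg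
    · rintro _ ⟨k, rfl⟩
      refine AddSubgroup.subset_closure ⟨l * k, ?_⟩
      funext u
      exact lv_hmul l k u
    · rw [mul_zero]
      exact zero_mem _
    · intro a b _ _ ha hb
      rw [mul_add]
      exact add_mem ha hb
    · intro a _ ha
      rw [mul_neg]
      exact neg_mem ha
  · rw [zero_mul]
    exact zero_mem _
  · intro a b _ _ ha hb
    rw [add_mul]
    exact add_mem ha hb
  · intro a _ ha
    rw [neg_mul]
    exact neg_mem ha

theorem LCG_lv {D : Type} [CommGroup D] [Finite D] (l : D →* ℂˣ) : LGC (lv l) := by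
  rw [LCG_iff]
  exact AddSubgroup.subset_closure ⟨l, rfl⟩

theorem LCG_const {D : Type} [CommGroup D] [Finite D] (c : ℤ) : LGC (fun _ : D => (c : ℂ)) := by
  have h1 : (fun _ : D => (c : ℂ)) = c • lv (1 : D →* ℂˣ) := by
    funext u
    simp
  rw [h1, LCG_iff]
  exact zsmul_mem (AddSubgroup.subset_closure (Set.mem_range_self (1 : D →* ℂˣ))) _

theorem LCG_linv {D : Type} [CommGroup D] [Finite D] (l : D →* ℂˣ) : LGC (fun u => lv l u⁻¹) := by
  have h1 : (fun u => lv l u⁻¹) = lv l⁻¹ := by
    funext u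
    rw [lv_inv, lv_hinv]
  rw [h1]
  exact LCG_lv _

theorem LCG_star {D : Type} [CommGroup D] [Finite D] (f : D → ℂ) (hf : LGC f) :
    LGC (fun u => (starRingEnd ℂ) (f u)) := by
  rw [LCG_iff] at hf
  refine AddSubgroup.closure_induction (p := fun f _ => LGC (fun u => (starRingEnd ℂ) (f u))) ?_ ?_ ?_ ?_ hf
  · rintro _ ⟨l, rfl⟩
    have h1 : (fun u => (starRingEnd ℂ) (lv l u)) = fun u => lv l u⁻¹ := by
      funext u
      exact star_lv l u
    have h2 := LCG_linv l
    rw [← h1] at h2
    exact h2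
  · have h2 := LCG_const (D := D) 0
    simpa using h2
  · intro a b _ _ ha hb
    rw [LCG_iff] at ha hb ⊢
    have h1 := add_mem ha hb
    have h2 : (fun u => (starRingEnd ℂ) ((a + b) u)) =
        (fun u => (starRingEnd ℂ) (a u)) + fun u => (starRingEnd ℂ) (b u) := by
      funext u
      simp
    rw [h2]
    exact h1
  · intro a _ ha
    rw [LCG_iff] at ha ⊢
    have h1 := neg_mem ha
    have h2 : (fun u => (starRingEnd ℂ) ((-a) u)) = -(fun u => (starRingEnd ℂ) (a u)) := by
      funext u
      simp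
    rw [h2]
    exact h1

/-- Row `fi:LCG`. -/
theorem LCG : LCG_stmt := by
  intro D _ _
  refine ⟨LCG_const, LCG_lv, LCG_linv, ?_, ?_, LCG_mul, LCG_star, ?_, ?_⟩
  · intro f g hf hg
    rw [LCG_iff] at hf hg ⊢
    exact add_mem hf hg
  · intro f g hf hg
    rw [LCG_iff] at hf hg ⊢
    exact sub_mem hf hg
  · intro f E hf
    induction E with
    | zero =>
      have h2 := LCG_const (D := D) 1
      simpa using h2
    | succ E ih =>
      have h2 := LCG_mul _ _ ih hf
      have h3 : (fun u => f u ^ (E + 1)) = (fun u => f u ^ E) * f := by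
        funext u
        rw [Pi.mul_apply, pow_succ]
      rw [h3]
      exact h2
  · intro X _ f hf
    have h3 : (fun u => ∑ χ, f χ u) = ∑ χ, f χ := by
      funext u
      rw [Finset.sum_apply]
    rw [h3, LCG_iff]
    exact sum_mem fun χ _ => (LCG_iff (f χ)).1 (hf χ)

end Pool.Agent.FI
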